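import Pool.Agent.helper90.IV.Spec

set_option autoImplicit false

open scoped BigOperators

namespace Pool.Agent.helper59.IV

open Pool.Agent.helper23.TH Pool.Agent.KS Pool.Agent.IV

noncomputable section

open Classical

/-- the live vertex which carries the value of the slot `r` -/
def ev {I : Type} {T : Tr I} (gh : T.R → Option I) (r : T.R) : I ⊕ T.R :=
  match gh r with
  | none => Sum.inr r
  | some w => Sum.inl w

theorem ev_none {I : Type} {T : Tr I} {gh : T.R → Option I} {r : T.R} (h : gh r = none) :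
    ev gh r = Sum.inr r := by
  unfold ev
  rw [h]

theorem ev_some {I : Type} {T : Tr I} {gh : T.R → Option I} {r : T.R} {w : I} (h : gh r = some w) :
    ev gh r = Sum.inl w := by
  unfold ev
  rw [h]

theorem ev_inj {I : Type} {T : Tr I} {gh : T.R → Option I}
    (once : ∀ r r' w, gh r = some w → gh r' = some w → r = r') (r r' : T.R)
    (h : ev gh r = ev gh r') : r = r' := by
  rcases hr : gh r with _ | w <;> rcases hr' : gh r' with _ | w'
  · rw [ev_none hr, ev_none hr'] at h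
    exact Sum.inr_injective h
  · rw [ev_none hr, ev_some hr'] at h
    cases h
  · rw [ev_some hr, ev_none hr'] at h
    cases h
  · rw [ev_some hr, ev_some hr'] at h
    have h2 := Sum.inl_injective h
    subst h2
    exact once r r' w hr hr'

theorem ev_lvv {I : Type} {T : Tr I} {gh : T.R → Option I} (r : T.R) : lvv T gh (ev gh r) := by
  rcases hr : gh r with _ | w
  · rw [ev_none hr]
    exact hr
  · rw [ev_some hr]
    trivial

/-- the prescribed vertices -/
def ph {I : Type} {T : Tr I} (gh : T.R → Option I) (i j : I) :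
    Bool ⊕ (Fin (T.ro i) ⊕ Fin (T.ro j)) → I ⊕ T.R
  | .inl false => Sum.inl i
  | .inl true => Sum.inl j
  | .inr (.inl k) => ev gh ⟨i, k⟩
  | .inr (.inr k) => ev gh ⟨j, k⟩

theorem ev_ne {I : Type} {T : Tr I} {gh : T.R → Option I} {W : Finset I}
    (mem : ∀ r w, gh r = some w → w ∈ W) {i : I} (hi : i ∉ W) (r : T.R) : ev gh r ≠ Sum.inl i := by
  intro h
  rcases hr : gh r with _ | w
  · rw [ev_none hr] at h
    cases h
  · rw [ev_some hr] at h
    have h2 := Sum.inl_injective h
    subst h2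
    exact hi (mem r w hr)

theorem ph_inj {I : Type} [Fintype I] {T : Tr I} {s : ℕ} {gh : T.R → Option I} {W : Finset I}
    (G : GI T s gh W) {i j : I} (hij : T.par i = some j) (hi : i ∉ W) (hj : j ∉ W) :
    Function.Injective (ph gh i j) := by
  have hne : i ≠ j := by
    intro h
    have := T.lt i j hij
    rw [h] at this
    exact lt_irrefl _ this
  have h1 : ∀ k k' : Fin (T.ro i), ev gh (⟨i, k⟩ : T.R) = ev gh ⟨i, k'⟩ → k = k' := by
    intro k k' h
    have := ev_inj G.once _ _ h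
    simpa using this
  have h2 : ∀ k k' : Fin (T.ro j), ev gh (⟨j, k⟩ : T.R) = ev gh ⟨j, k'⟩ → k = k' := by
    intro k k' h
    have := ev_inj G.once _ _ h
    simpa using this
  have h3 : ∀ (k : Fin (T.ro i)) (k' : Fin (T.ro j)), ev gh (⟨i, k⟩ : T.R) ≠ ev gh ⟨j, k'⟩ := by
    intro k k' h
    have := ev_inj G.once _ _ h
    exact hne (congrArg Sigma.fst this)
  rintro ((_ | _) | (k | k)) ((_ | _) | (k' | k')) h <;> simp only [ph] at h
  · rfl
  · exact absurd (Sum.inl_injective h) hne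
  · exact absurd h.symm (ev_ne G.mem hi _)
  · exact absurd h.symm (ev_ne G.mem hi _)
  · exact absurd (Sum.inl_injective h).symm hne
  · rfl
  · exact absurd h.symm (ev_ne G.mem hj _)
  · exact absurd h.symm (ev_ne G.mem hj _)
  · exact absurd h (ev_ne G.mem hi _)
  · exact absurd h (ev_ne G.mem hj _)
  · rw [h1 _ _ h]
  · exact absurd h (h3 _ _)
  · exact absurd h (ev_ne G.mem hi _)
  · exact absurd h (ev_ne G.mem hj _)
  · exact absurd h.symm (h3 _ _)
  · rw [h2 _ _ h]

/-- homomorphisms with prescribed values at `i`, `j` and their slots -/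
theorem fib (hTE : TE_stmt) {I : Type} [Fintype I] (T : Tr I) {V : Type} [Fintype V]
    (A : V → V → Prop) (Δ : ℝ) (gh : T.R → Option I) (symm : ∀ a b, A a b → A b a) (hΔ : 0 < Δ)
    (hdeg : ∀ v, (deg A v : ℝ) ≤ Δ) {s : ℕ} {W : Finset I} (G : GI T s gh W) {i j : I}
    (hij : T.par i = some j) (hi : i ∉ W) (hj : j ∉ W) (w v : V) (yi : Fin (T.ro i) → V)
    (yj : Fin (T.ro j) → V) :
    (((Hm T A gh).filter fun f => f.1 i = w ∧ f.1 j = v ∧ (∀ k, f.2 ⟨i, k⟩ = yi k) ∧
      ∀ k, f.2 ⟨j, k⟩ = yj k).card : ℝ) * Δ ^ (2 + (T.ro i + T.ro j)) ≤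
      Δ ^ (Fintype.card I + nl T gh) := by
  set F := (Hm T A gh).filter fun f => f.1 i = w ∧ f.1 j = v ∧ (∀ k, f.2 ⟨i, k⟩ = yi k) ∧
      ∀ k, f.2 ⟨j, k⟩ = yj k with hF
  rcases F.eq_empty_or_nonempty with h0 | ⟨f0, hf0⟩
  · rw [h0]
    simp only [Finset.card_empty, Nat.cast_zero, zero_mul]
    positivity
  · have key : ∀ f ∈ F, ∀ r : T.R, r.1 = i ∨ r.1 = j →
        Sum.elim f.1 f.2 (ev gh r) = Sum.elim f0.1 f0.2 (ev gh r) := by
      intro f hf r hr
      have hfr : f.2 r = f0.2 r := by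
        rw [hF, Finset.mem_filter] at hf hf0
        obtain ⟨a, k⟩ := r
        rcases hr with hr | hr
        · simp only at hr
          subst hr
          rw [hf.2.2.2.1 k, hf0.2.2.2.1 k]
        · simp only at hr
          subst hr
          rw [hf.2.2.2.2 k, hf0.2.2.2.2 k]
      rcases hg : gh r with _ | u
      · rw [ev_none hg]
        exact hfr
      · rw [ev_some hg]
        have h1 : f.2 r = f.1 u := by
          rw [hF, Finset.mem_filter] at hf
          have := hf.1
          rw [Hm, Finset.mem_filter] at this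
          exact this.2.2 r u hg
        have h2 : f0.2 r = f0.1 u := by
          rw [hF, Finset.mem_filter] at hf0
          have := hf0.1
          rw [Hm, Finset.mem_filter] at this
          exact this.2.2 r u hg
        simp only [Sum.elim_inl]
        rw [← h1, ← h2, hfr]
    have hZ := hTE I T V A Δ gh symm hΔ hdeg (Finset.univ.image (ph gh i j)) (Sum.elim f0.1 f0.2)
      ⟨ph gh i j (.inl false), Finset.mem_image_of_mem _ (Finset.mem_univ _)⟩ (by
        intro t ht
        rw [Finset.mem_image] at ht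
        obtain ⟨x, -, rfl⟩ := ht
        rcases x with (_ | _) | (k | k)
        · trivial
        · trivial
        · exact ev_lvv _
        · exact ev_lvv _)
    rw [Finset.card_image_of_injective _ (ph_inj G hij hi hj), Finset.card_univ] at hZ
    simp only [Fintype.card_sum, Fintype.card_bool, Fintype.card_fin] at hZ
    refine le_trans (mul_le_mul_of_nonneg_right ?_ (by positivity)) hZ
    rw [Nat.cast_le]
    apply Finset.card_le_card
    intro f hf
    rw [Finset.mem_filter]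
    refine ⟨?_, ?_⟩
    · rw [hF, Finset.mem_filter] at hf
      exact hf.1
    · intro t ht
      rw [Finset.mem_image] at ht
      obtain ⟨x, -, rfl⟩ := ht
      rcases x with (_ | _) | (k | k)
      · rw [hF, Finset.mem_filter] at hf hf0
        simp only [ph, Sum.elim_inl]
        rw [hf.2.1, hf0.2.1]
      · rw [hF, Finset.mem_filter] at hf hf0
        simp only [ph, Sum.elim_inl]
        rw [hf.2.2.1, hf0.2.2.1]
      · exact key f hf _ (Or.inl rfl)
      · exact key f hf _ (Or.inr rfl)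

/-- the keys -/
def Ky {V K : Type} [Fintype V] (A : V → V → Prop) (lam : Fin 2 → V → V → K) (l : Fin 2) (q q' : ℕ) :
    Finset ((_ : V × V) × (_ : V × V) × ((Fin q → V) × (Fin q' → V))) :=
  (Finset.univ.filter fun wv : V × V => A wv.1 wv.2).sigma fun wv =>
    (Finset.univ.filter fun p : V × V => A p.1 p.2 ∧ p.1 ≠ wv.1 ∧ p.2 ≠ wv.2 ∧
      lam l p.1 p.2 = lam l wv.1 wv.2).sigma fun p =>
      (Fintype.piFinset fun _ : Fin q => Finset.univ.filter fun m => A wv.1 m ∧ A p.1 m) ×ˢ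
        (Fintype.piFinset fun _ : Fin q' => Finset.univ.filter fun m => A wv.2 m ∧ A p.2 m)

theorem ky_card (hEB : EB_stmt) {V K : Type} [Fintype V] (A : V → V → Prop)
    (lam : Fin 2 → V → V → K) (l : Fin 2) (s q q' : ℕ) (d κ KE : ℝ) (pr : PrE A lam) (hd : 0 < d)
    (hκ : 1 ≤ κ) (hKE : 0 ≤ KE) (hs : s ≤ q + q') (hdeg : ∀ v, (deg A v : ℝ) ≤ κ * d)
    (hext : ∀ w, ∑ w' ∈ Finset.univ.erase w, (cd A w w' : ℝ) ^ s ≤ KE * d ^ s) :
    ((Ky A lam l q q').card : ℝ) ≤
      (Fintype.card V : ℝ) * (κ * d) * (2 * KE * (κ * d) ^ (q + q')) := by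
  have hκd : 0 < κ * d := by positivity
  have hn : (((Finset.univ.filter fun wv : V × V => A wv.1 wv.2).card : ℕ) : ℝ) ≤
      (Fintype.card V : ℝ) * (κ * d) := by
    rw [Finset.card_filter, Fintype.sum_prod_type]
    push_cast
    calc ∑ x : V, ∑ y : V, (if A x y then (1 : ℝ) else 0) = ∑ x : V, (deg A x : ℝ) := by
          apply Finset.sum_congr rfl
          intro x _
          rw [deg, Finset.card_filter]
          push_cast
          rfl
      _ ≤ ∑ _x : V, κ * d := Finset.sum_le_sum fun x _ => hdeg x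
      _ = (Fintype.card V : ℝ) * (κ * d) := by
          rw [Finset.sum_const, Finset.card_univ, nsmul_eq_mul]
  have hc : ((Ky A lam l q q').card : ℝ) =
      ∑ wv ∈ Finset.univ.filter (fun wv : V × V => A wv.1 wv.2),
        ∑ p ∈ Finset.univ.filter (fun p : V × V => A p.1 p.2 ∧ p.1 ≠ wv.1 ∧ p.2 ≠ wv.2 ∧
          lam l p.1 p.2 = lam l wv.1 wv.2), (cd A wv.1 p.1 : ℝ) ^ q * (cd A wv.2 p.2 : ℝ) ^ q' := by
    rw [Ky, Finset.card_sigma]
    push_cast
    apply Finset.sum_congr rfl
    intro wv _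
    rw [Finset.card_sigma]
    push_cast
    apply Finset.sum_congr rfl
    intro p _
    rw [Finset.card_product, Fintype.card_piFinset, Fintype.card_piFinset]
    simp only [Finset.prod_const, Finset.card_univ, Fintype.card_fin, Nat.cast_mul, Nat.cast_pow, cd]
  rw [hc]
  calc _ ≤ ∑ wv ∈ Finset.univ.filter (fun wv : V × V => A wv.1 wv.2),
        (2 * KE * (κ * d) ^ (q + q')) := by
        apply Finset.sum_le_sum
        intro wv hwv
        rw [Finset.mem_filter] at hwv
        exact hEB V K A lam s q q' d κ KE pr hd hκ hKE hs hdeg hext l wv.1 wv.2 hwv.2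
    _ = (((Finset.univ.filter fun wv : V × V => A wv.1 wv.2).card : ℕ) : ℝ) *
        (2 * KE * (κ * d) ^ (q + q')) := by
        rw [Finset.sum_const, nsmul_eq_mul]
    _ ≤ _ := mul_le_mul_of_nonneg_right hn (by positivity)

theorem mem_CFs {I V K : Type} [Fintype V] (T : Tr I) (A : V → V → Prop) (lam : Fin 2 → V → V → K)
    (x : I → V) (y : T.R → V) (l : Fin 2) (i j : I) (p : V × V) :
    p ∈ CFs T A lam x y l i j ↔ A p.1 p.2 ∧ p.1 ≠ x i ∧ p.2 ≠ x j ∧
      lam l p.1 p.2 = lam l (x i) (x j) ∧ (∀ r : T.R, r.1 = i → A p.1 (y r)) ∧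
      ∀ r : T.R, r.1 = j → A p.2 (y r) := by
  rw [CFs, Finset.mem_filter]
  exact ⟨fun h => h.2, fun h => ⟨Finset.mem_univ _, h⟩⟩

theorem cf_sum (hTE : TE_stmt) (hEB : EB_stmt) {I : Type} [Fintype I] (T : Tr I) {V K : Type}
    [Fintype V] (A : V → V → Prop) (lam : Fin 2 → V → V → K) (gh : T.R → Option I) {s : ℕ}
    {d κ KE : ℝ} (pr : PrE A lam) (hd : 0 < d) (hκ : 1 ≤ κ) (hKE : 0 ≤ KE)
    (hdeg : ∀ v, (deg A v : ℝ) ≤ κ * d)
    (hext : ∀ w, ∑ w' ∈ Finset.univ.erase w, (cd A w w' : ℝ) ^ s ≤ KE * d ^ s)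
    {W : Finset I} (G : GI T s gh W) (l : Fin 2) {i j : I}
    (hij : T.par i = some j) (hi : i ∉ W) (hj : j ∉ W) (hs : s ≤ T.ro i + T.ro j) :
    ∑ f ∈ Hm T A gh, ((CFs T A lam f.1 f.2 l i j).card : ℝ) ≤
      2 * KE * (Fintype.card V : ℝ) * (κ * d) ^ (Fintype.card I - 1 + nl T gh) := by
  set Δ := κ * d with hΔd
  have hΔ : 0 < Δ := by positivity
  set S := (Hm T A gh).sigma fun f => CFs T A lam f.1 f.2 l i j with hS
  have hcard : (S.card : ℝ) = ∑ f ∈ Hm T A gh, ((CFs T A lam f.1 f.2 l i j).card : ℝ) := by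
    rw [hS, Finset.card_sigma]
    push_cast
    rfl
  set M : ((_ : (I → V) × (T.R → V)) × (V × V)) →
      ((_ : V × V) × (_ : V × V) × ((Fin (T.ro i) → V) × (Fin (T.ro j) → V))) :=
    fun x => ⟨(x.1.1 i, x.1.1 j), ⟨x.2, (fun k => x.1.2 ⟨i, k⟩, fun k => x.1.2 ⟨j, k⟩)⟩⟩ with hM
  have hmaps : ∀ x ∈ S, M x ∈ Ky A lam l (T.ro i) (T.ro j) := by
    rintro ⟨f, p⟩ hx
    rw [hS, Finset.mem_sigma] at hx
    obtain ⟨hf, hp⟩ := hx
    simp only at hf hp
    rw [Hm, Finset.mem_filter] at hf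
    rw [mem_CFs] at hp
    obtain ⟨-, ⟨hh1, hh2⟩, -⟩ := hf
    obtain ⟨p1, p2, p3, p4, p5, p6⟩ := hp
    rw [hM, Ky, Finset.mem_sigma, Finset.mem_sigma]
    refine ⟨?_, ?_, ?_⟩
    · simp only [Finset.mem_filter, Finset.mem_univ, true_and]
      exact hh1 i j hij
    · simp only [Finset.mem_filter, Finset.mem_univ, true_and]
      exact ⟨p1, p2, p3, p4⟩
    · simp only [Finset.mem_product, Fintype.mem_piFinset, Finset.mem_filter, Finset.mem_univ,
        true_and]
      exact ⟨fun k => ⟨hh2 ⟨i, k⟩, p5 ⟨i, k⟩ rfl⟩, fun k => ⟨hh2 ⟨j, k⟩, p6 ⟨j, k⟩ rfl⟩⟩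
  have hfib : ∀ b ∈ Ky A lam l (T.ro i) (T.ro j),
      ((S.filter fun x => M x = b).card : ℝ) * Δ ^ (2 + (T.ro i + T.ro j)) ≤
        Δ ^ (Fintype.card I + nl T gh) := by
    rintro ⟨⟨w, v⟩, ⟨p, ⟨yi, yj⟩⟩⟩ _
    refine le_trans (mul_le_mul_of_nonneg_right ?_ (by positivity))
      (fib hTE T A Δ gh pr.symm hΔ hdeg G hij hi hj w v yi yj)
    rw [Nat.cast_le]
    apply Finset.card_le_card_of_injOn (fun x => x.1)
    · rintro ⟨f, p'⟩ hx
      simp only [Finset.coe_filter, Set.mem_ofPred_eq] at hx ⊢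
      obtain ⟨hx1, hx2⟩ := hx
      rw [hS, Finset.mem_sigma] at hx1
      rw [hM] at hx2
      simp only [Sigma.mk.injEq, Prod.mk.injEq, heq_eq_eq] at hx2
      obtain ⟨⟨e1, e2⟩, -, e3, e4⟩ := hx2
      exact ⟨hx1.1, e1, e2, fun k => congrFun e3 k, fun k => congrFun e4 k⟩
    · rintro ⟨f, p'⟩ hx ⟨f', p''⟩ hx' hff
      simp only [Finset.coe_filter, Set.mem_ofPred_eq] at hx hx' hff
      rw [hM] at hx hx'
      have h1 := hx.2
      have h2 := hx'.2
      simp only [Sigma.mk.injEq, Prod.mk.injEq, heq_eq_eq] at h1 h2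
      rw [h1.2.1, h2.2.1, hff]
  have hsum : (S.card : ℝ) * Δ ^ (2 + (T.ro i + T.ro j)) ≤
      ((Ky A lam l (T.ro i) (T.ro j)).card : ℝ) * Δ ^ (Fintype.card I + nl T gh) := by
    rw [Finset.card_eq_sum_card_fiberwise hmaps]
    push_cast
    rw [Finset.sum_mul]
    calc _ ≤ ∑ _b ∈ Ky A lam l (T.ro i) (T.ro j), Δ ^ (Fintype.card I + nl T gh) :=
          Finset.sum_le_sum fun b hb => hfib b hb
      _ = _ := by rw [Finset.sum_const, nsmul_eq_mul]
  have hky := ky_card hEB A lam l s (T.ro i) (T.ro j) d κ KE pr hd hκ hKE hs hdeg hext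
  rw [← hΔd] at hky
  have hI : Fintype.card I = Fintype.card I - 1 + 1 := by
    have : 0 < Fintype.card I := Fintype.card_pos_iff.2 ⟨i⟩
    omega
  rw [← hcard]
  have hpow : 0 < Δ ^ (2 + (T.ro i + T.ro j)) := by positivity
  refine le_of_mul_le_mul_right ?_ hpow
  refine le_trans hsum (le_trans (mul_le_mul_of_nonneg_right hky (by positivity)) (le_of_eq ?_))
  have e1 : Fintype.card I + nl T gh = (Fintype.card I - 1 + nl T gh) + 1 := by omega
  rw [e1, pow_succ, pow_add Δ 2]
  ring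

theorem NC (h1 : HLB_stmt) (h2 : TE_stmt) (h3 : EB_stmt) : NC_stmt := by
  intro I _ T s κ KE δ tok hκ hδ
  set B : ℝ := 2 * (Fintype.card I : ℝ) ^ 2 * (2 * |KE| *
    κ ^ (Fintype.card I + Fintype.card T.R)) / δ with hB
  have hB0 : 0 ≤ B := by positivity
  obtain ⟨P, hP⟩ := exists_nat_ge (B + 1)
  refine ⟨P, ?_⟩
  intro V K _ A lam Ch d ε K₀ env gh W G
  have hP0 : (0 : ℝ) < P := by linarith
  have hd : 0 < d := lt_of_lt_of_le one_pos env.d1
  have hKE : 0 ≤ KE := by
    obtain ⟨w⟩ := Fintype.card_pos_iff.1 env.pos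
    have h := env.ext w
    have h0 : (0 : ℝ) ≤ ∑ w' ∈ Finset.univ.erase w, (cd A w w' : ℝ) ^ s :=
      Finset.sum_nonneg fun _ _ => by positivity
    have h5 : 0 < d ^ s := by positivity
    by_contra hc
    push Not at hc
    have : KE * d ^ s < 0 := mul_neg_of_neg_of_pos hc h5
    linarith
  have hnl : nl T gh ≤ Fintype.card T.R := by
    rw [nl, ← Finset.card_univ]
    exact Finset.card_le_card (Finset.filter_subset _ _)
  set N := Fintype.card I - 1 + nl T gh with hN
  have hlb : (Fintype.card V : ℝ) * d ^ N ≤ ((Hm T A gh).card : ℝ) :=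
    h1 I T V A d gh env.pr.symm hd.le env.lo G.gv
  have hκN : κ ^ N ≤ κ ^ (Fintype.card I + Fintype.card T.R) :=
    pow_le_pow_right₀ hκ (by omega)
  set H : ℝ := ((Hm T A gh).card : ℝ) with hH
  have hH0 : 0 ≤ H := by positivity
  have hbad : ∀ (l : Fin 2) (i j : I), T.par i = some j → i ∉ W → j ∉ W →
      (P : ℝ) * (((Hm T A gh).filter fun f => ¬ (CFs T A lam f.1 f.2 l i j).card < P).card : ℝ) ≤
        2 * |KE| * κ ^ (Fintype.card I + Fintype.card T.R) * H := by
    intro l i j hij hi hj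
    have hs := cf_sum h2 h3 T A lam gh env.pr hd hκ hKE env.hi env.ext G l hij hi hj
      (tok.edge i j hij)
    have hm : (P : ℝ) *
        (((Hm T A gh).filter fun f => ¬ (CFs T A lam f.1 f.2 l i j).card < P).card : ℝ) ≤
        ∑ f ∈ Hm T A gh, ((CFs T A lam f.1 f.2 l i j).card : ℝ) := by
      calc _ = ∑ _f ∈ (Hm T A gh).filter (fun f => ¬ (CFs T A lam f.1 f.2 l i j).card < P),
            (P : ℝ) := by
            rw [Finset.sum_const, nsmul_eq_mul, mul_comm]
        _ ≤ ∑ f ∈ (Hm T A gh).filter (fun f => ¬ (CFs T A lam f.1 f.2 l i j).card < P),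
            ((CFs T A lam f.1 f.2 l i j).card : ℝ) := by
            apply Finset.sum_le_sum
            intro f hf
            rw [Finset.mem_filter] at hf
            exact_mod_cast Nat.not_lt.1 hf.2
        _ ≤ _ := Finset.sum_le_sum_of_subset_of_nonneg (Finset.filter_subset _ _)
            fun _ _ _ => by positivity
    refine le_trans hm (le_trans hs ?_)
    rw [abs_of_nonneg hKE, mul_pow]
    calc 2 * KE * (Fintype.card V : ℝ) * (κ ^ N * d ^ N) =
          2 * KE * κ ^ N * ((Fintype.card V : ℝ) * d ^ N) := by ring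
      _ ≤ 2 * KE * κ ^ (Fintype.card I + Fintype.card T.R) * H := by
          apply mul_le_mul _ hlb (by positivity) (by positivity)
          exact mul_le_mul_of_nonneg_left hκN (by positivity)
  have hsub : ((Hm T A gh).filter fun f => ¬ NCF T A lam P W f.1 f.2) ⊆
      (Finset.univ.filter fun t : Fin 2 × I × I => T.par t.2.1 = some t.2.2 ∧ t.2.1 ∉ W ∧
        t.2.2 ∉ W).biUnion fun t =>
        (Hm T A gh).filter fun f => ¬ (CFs T A lam f.1 f.2 t.1 t.2.1 t.2.2).card < P := by
    intro f hf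
    rw [Finset.mem_filter] at hf
    obtain ⟨hf1, hf2⟩ := hf
    unfold NCF at hf2
    push Not at hf2
    obtain ⟨l, i, j, hij, hi, hj, hc⟩ := hf2
    rw [Finset.mem_biUnion]
    refine ⟨(l, i, j), ?_, ?_⟩
    · rw [Finset.mem_filter]
      exact ⟨Finset.mem_univ _, hij, hi, hj⟩
    · rw [Finset.mem_filter]
      exact ⟨hf1, Nat.not_lt.2 hc⟩
  have hfin : (P : ℝ) * ((((Hm T A gh).filter fun f => ¬ NCF T A lam P W f.1 f.2).card : ℕ) : ℝ) ≤
      (2 * (Fintype.card I : ℝ) ^ 2) *
        (2 * |KE| * κ ^ (Fintype.card I + Fintype.card T.R) * H) := by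
    calc _ ≤ (P : ℝ) * ∑ t ∈ (Finset.univ.filter fun t : Fin 2 × I × I =>
          T.par t.2.1 = some t.2.2 ∧ t.2.1 ∉ W ∧ t.2.2 ∉ W),
          (((Hm T A gh).filter fun f =>
            ¬ (CFs T A lam f.1 f.2 t.1 t.2.1 t.2.2).card < P).card : ℝ) := by
          apply mul_le_mul_of_nonneg_left _ hP0.le
          refine le_trans (Nat.cast_le.2 (Finset.card_le_card hsub)) ?_
          refine le_trans (Nat.cast_le.2 Finset.card_biUnion_le) ?_
          push_cast
          exact le_rfl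
      _ = ∑ t ∈ (Finset.univ.filter fun t : Fin 2 × I × I =>
          T.par t.2.1 = some t.2.2 ∧ t.2.1 ∉ W ∧ t.2.2 ∉ W),
          (P : ℝ) * (((Hm T A gh).filter fun f =>
            ¬ (CFs T A lam f.1 f.2 t.1 t.2.1 t.2.2).card < P).card : ℝ) := by
          rw [Finset.mul_sum]
      _ ≤ ∑ _t ∈ (Finset.univ.filter fun t : Fin 2 × I × I =>
          T.par t.2.1 = some t.2.2 ∧ t.2.1 ∉ W ∧ t.2.2 ∉ W),
          (2 * |KE| * κ ^ (Fintype.card I + Fintype.card T.R) * H) := by
          apply Finset.sum_le_sum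
          intro t ht
          rw [Finset.mem_filter] at ht
          exact hbad t.1 t.2.1 t.2.2 ht.2.1 ht.2.2.1 ht.2.2.2
      _ ≤ ∑ _t : Fin 2 × I × I,
          (2 * |KE| * κ ^ (Fintype.card I + Fintype.card T.R) * H) := by
          apply Finset.sum_le_sum_of_subset_of_nonneg (Finset.filter_subset _ _)
          intro _ _ _
          positivity
      _ = _ := by
          rw [Finset.sum_const, Finset.card_univ, nsmul_eq_mul]
          simp only [Fintype.card_prod, Fintype.card_fin]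
          push_cast
          ring
  have hPB : (2 * (Fintype.card I : ℝ) ^ 2) *
      (2 * |KE| * κ ^ (Fintype.card I + Fintype.card T.R)) = B * δ := by
    rw [hB]
    field_simp
  have : (P : ℝ) * ((((Hm T A gh).filter fun f => ¬ NCF T A lam P W f.1 f.2).card : ℕ) : ℝ) ≤
      (P : ℝ) * (δ * H) := by
    refine le_trans hfin ?_
    calc _ = B * δ * H := by rw [← hPB]; ring
      _ ≤ (P : ℝ) * δ * H := by
          apply mul_le_mul_of_nonneg_right _ hH0
          apply mul_le_mul_of_nonneg_right _ hδ.le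
          linarith
      _ = _ := by ring
  exact le_of_mul_le_mul_left this hP0

end

end Pool.Agent.helper59.IV
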